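import Pool.Agent.W97.KE.Stm

set_option autoImplicit false

open scoped Classical

namespace Pool.Agent.W382.KE

open Pool.Agent.W97.KE
open Pool.Agent.W97.MT (ap)

theorem sum_mapDomain {R G G' : Type} [Semiring R] [Finite G] [Finite G']
    (f : G → G') (x : MonoidAlgebra R G) :
    ∑ᶠ u : G', (MonoidAlgebra.mapDomain f x).coeff u = ∑ᶠ u : G, x.coeff u := by
  cases nonempty_fintype G
  cases nonempty_fintype G'
  rw [finsum_eq_sum_of_fintype, finsum_eq_sum_of_fintype]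
  have h1 : ∀ (X : Type) [Fintype X] (g : X →₀ R), ∑ u, g u = g.sum fun _ a => a := by
    intro X _ g
    rw [Finsupp.sum_fintype _ _ (fun _ => rfl)]
  rw [h1, h1]
  exact Finsupp.sum_mapDomain_index (fun _ => rfl) (fun _ _ _ => rfl)

theorem theta_one {W : WeierstrassCurve ℤ} (S : Symb W) {M : ℕ} (hM : M = 1) (u : (ZMod M)ˣ) :
    theta S M u = S.plus 0 + S.minus 0 := by
  subst hM
  unfold theta
  have h : (((u⁻¹ : (ZMod 1)ˣ) : ZMod 1)).val = 0 := by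
    have := ZMod.val_lt ((u⁻¹ : (ZMod 1)ˣ) : ZMod 1)
    omega
  rw [h]
  simp

theorem sum_units (p : ℕ) [hp : Fact p.Prime] (f : ℕ → ℚ) :
    ∑ u : (ZMod p)ˣ, f ((u⁻¹ : (ZMod p)ˣ) : ZMod p).val = ∑ a ∈ (Finset.range p).erase 0, f a := by
  refine (Equiv.sum_comp (Equiv.inv (ZMod p)ˣ) (fun u => f ((u : ZMod p)).val)).trans ?_
  refine Finset.sum_nbij (fun u => ((u : (ZMod p)ˣ) : ZMod p).val) ?_ ?_ ?_ ?_
  · intro u _
    rw [Finset.mem_erase, Finset.mem_range]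
    refine ⟨?_, ZMod.val_lt _⟩
    rw [Ne, ZMod.val_eq_zero]
    exact u.ne_zero
  · intro u _ v _ h
    exact Units.ext (ZMod.val_injective p h)
  · intro a ha
    rw [Finset.mem_coe, Finset.mem_erase, Finset.mem_range] at ha
    have hc : Nat.Coprime a p := by
      rw [Nat.coprime_comm, hp.out.coprime_iff_not_dvd]
      intro hd
      exact ha.1 (Nat.eq_zero_of_dvd_of_lt hd ha.2)
    refine ⟨ZMod.unitOfCoprime a hc, by simp, ?_⟩
    simp only [ZMod.coe_unitOfCoprime]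
    rw [ZMod.val_natCast, Nat.mod_eq_of_lt ha.2]
  · intro u _
    rfl

theorem sum_theta {W : WeierstrassCurve ℤ} (S : Symb W) (p : ℕ) [hp : Fact p.Prime]
    (hH : HeckeRel S p) {M : ℕ} (hM : M = p) :
    ∑ᶠ u : (ZMod M)ˣ, theta S M u = ((ap W p : ℚ) - 2) * (S.plus 0 + S.minus 0) := by
  subst hM
  rw [finsum_eq_sum_of_fintype]
  have h1 := sum_units M (fun a => S.plus (a / M) + S.minus (a / M))
  have h2 : ∑ u : (ZMod M)ˣ, theta S M u =
      ∑ a ∈ (Finset.range M).erase 0, (S.plus (a / M) + S.minus (a / M)) := h1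
  rw [h2]
  have hmem : 0 ∈ Finset.range M := Finset.mem_range.2 hp.out.pos
  have h3 := Finset.add_sum_erase (Finset.range M) (fun a : ℕ => S.plus (a / M) + S.minus (a / M)) hmem
  have h4 := hH 0
  simp only [mul_zero, zero_add] at h4
  have h5 : ∑ a ∈ Finset.range M, (S.plus ((a : ℚ) / M) + S.minus ((a : ℚ) / M)) =
      ap W M * (S.plus 0 + S.minus 0) - (S.plus 0 + S.minus 0) := by
    rw [Finset.sum_add_distrib]
    linarith [h4.1, h4.2]
  rw [h5] at h3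
  simp only [Nat.cast_zero, zero_div] at h3
  linarith

theorem s_aug : S_AUG := by
  intro W S p hp hper hH α hα hαu hap hc0 hval y hy
  rw [PadicInt.isUnit_iff]
  set c0 : ℚ := S.plus 0 + S.minus 0 with hc
  have hαn : ‖α‖ = 1 := PadicInt.isUnit_iff.1 hαu
  have hα0 : (α : ℚ_[p]) ≠ 0 := by
    intro h
    have : ‖(α : ℚ_[p])‖ = 1 := hαn
    rw [h, norm_zero] at this
    exact zero_ne_one this
  -- the augmentation in terms of level 0
  have h0 : ∑ᶠ u : (ZMod (1 * p ^ (1 + 1)))ˣ, ((y.1 1).coeff u : ℤ_[p]) =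
      ∑ᶠ u : (ZMod (1 * p ^ (0 + 1)))ˣ, ((y.1 0).coeff u : ℤ_[p]) := by
    have h := y.2 0
    have : NeZero (1 * p ^ (0 + 1 + 1)) := ⟨by have := hp.out.pos; positivity⟩
    have : NeZero (1 * p ^ (0 + 1)) := ⟨by have := hp.out.pos; positivity⟩
    rw [← h]
    exact (sum_mapDomain _ _).symm
  rw [h0]
  -- the sum in `ℚ_p`
  have hM1 : 1 * p ^ (0 + 1) = p := by ring
  have hM0 : 1 * p ^ 0 = 1 := by ring
  have hne : NeZero (1 * p ^ (0 + 1)) := ⟨by have := hp.out.pos; positivity⟩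
  have hcard : Fintype.card (ZMod (1 * p ^ (0 + 1)))ˣ = p - 1 := by
    have key : ∀ M : ℕ, [NeZero M] → M = p → Fintype.card (ZMod M)ˣ = p - 1 := by
      intro M _ hM
      subst hM
      rw [ZMod.card_units_eq_totient, Nat.totient_prime hp.out]
    exact key _ hM1
  have hsum : ((∑ᶠ u : (ZMod (1 * p ^ (0 + 1)))ˣ, ((y.1 0).coeff u : ℤ_[p]) : ℤ_[p]) : ℚ_[p]) =
      (α : ℚ_[p])⁻¹ * ((((ap W p : ℚ) - 2) * c0 : ℚ) - (α : ℚ_[p])⁻¹ * ((p : ℚ_[p]) - 1) * (c0 : ℚ)) := by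
    rw [finsum_eq_sum_of_fintype, PadicInt.coe_sum]
    have e : ∀ u : (ZMod (1 * p ^ (0 + 1)))ˣ, (((y.1 0).coeff u : ℤ_[p]) : ℚ_[p]) =
        (α : ℚ_[p])⁻¹ * ((theta S (1 * p ^ (0 + 1)) u : ℚ) - (α : ℚ_[p])⁻¹ * (c0 : ℚ)) := by
      intro u
      rw [hy 0 u, theta_one S hM0, ← hc]
      simp
    rw [Finset.sum_congr rfl (fun u _ => e u), ← Finset.mul_sum, Finset.sum_sub_distrib,
      Finset.sum_const, Finset.card_univ, hcard, ← Rat.cast_sum]
    have hs := sum_theta S p hH hM1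
    rw [finsum_eq_sum_of_fintype, ← hc] at hs
    rw [hs, nsmul_eq_mul, Nat.cast_sub hp.out.one_le]
    push_cast
    ring
  have hq : (α : ℚ_[p]) ^ 2 - (ap W p : ℚ_[p]) * α + p = 0 := by
    have := congrArg (fun z : ℤ_[p] => (z : ℚ_[p])) hα
    push_cast at this
    exact this
  have hap2 : (ap W p : ℚ_[p]) = α + p * (α : ℚ_[p])⁻¹ := by
    field_simp
    linear_combination -hq
  have hfin : ((∑ᶠ u : (ZMod (1 * p ^ (0 + 1)))ˣ, ((y.1 0).coeff u : ℤ_[p]) : ℤ_[p]) : ℚ_[p]) =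
      (c0 : ℚ_[p]) * (((α : ℚ_[p]) - 1) * (α : ℚ_[p])⁻¹) ^ 2 := by
    rw [hsum]
    push_cast
    rw [hap2]
    field_simp
    ring
  have hcn : ‖((c0 : ℚ) : ℚ_[p])‖ = 1 := by
    rw [Padic.eq_padicNorm, padicNorm.eq_zpow_of_nonzero hc0, hval]
    simp
  have ha1 : ‖α - 1‖ = 1 := by
    by_contra hne1
    have hlt : ‖α - 1‖ < 1 := lt_of_le_of_ne (PadicInt.norm_le_one _) hne1
    apply hap
    rw [← PadicInt.norm_int_lt_one_iff_dvd]
    have hαa : α * ((ap W p : ℤ_[p]) - α) = p := by linear_combination -hα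
    have hlt2 : ‖(ap W p : ℤ_[p]) - α‖ < 1 := by
      have h := congrArg norm hαa
      rw [norm_mul, hαn, one_mul] at h
      rw [h]
      have h2 := (PadicInt.norm_int_lt_one_iff_dvd (p := p) (p : ℤ)).2 dvd_rfl
      simpa using h2
    have : ((ap W p - 1 : ℤ) : ℤ_[p]) = ((ap W p : ℤ_[p]) - α) + (α - 1) := by
      push_cast; ring
    rw [this]
    exact (PadicInt.nonarchimedean _ _).trans_lt (max_lt hlt2 hlt)
  have hres : ‖((∑ᶠ u : (ZMod (1 * p ^ (0 + 1)))ˣ, ((y.1 0).coeff u : ℤ_[p]) : ℤ_[p]) : ℚ_[p])‖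
      = 1 := by
    rw [hfin, norm_mul, norm_pow, norm_mul, norm_inv, hcn]
    have e1 : ‖(α : ℚ_[p])‖ = 1 := hαn
    have e2 : ‖(α : ℚ_[p]) - 1‖ = 1 := by
      have : ((α - 1 : ℤ_[p]) : ℚ_[p]) = (α : ℚ_[p]) - 1 := by push_cast; ring
      rw [← this]
      exact ha1
    rw [e1, e2]
    norm_num
  exact hres

end Pool.Agent.W382.KE
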